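import Mathlib
import Pool.Agent.H744R2.KZ.Props

open scoped ComplexOrder InnerProductSpace ComplexConjugate Topology
open Finset Filter

noncomputable section

namespace H744R2.KZ

open H759R2.Kad

universe u

namespace E_est_aux

variable {A : Type u} [CStarAlgebra A]

theorem spec_le (a : A) (ha : IsSelfAdjoint a) {x : ℝ} (hx : x ∈ spectrum ℝ a) : |x| ≤ ‖a‖ := by
  have h := norm_apply_le_norm_cfc (fun x : ℝ => x) a hx (by fun_prop) ha
  rw [cfc_id' ℝ a ha] at h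
  exact h

/-- positive and negative parts and their square roots -/
theorem parts (a : A) (ha : IsSelfAdjoint a) : ∃ b c m : A, IsSelfAdjoint b ∧ IsSelfAdjoint c ∧
    IsSelfAdjoint m ∧ a = b * b - c * c ∧ m = b * b + c * c ∧ m * m = a * a ∧
    ‖b‖ ≤ √‖a‖ ∧ ‖c‖ ≤ √‖a‖ := by
  have hb : Continuous (fun x : ℝ => √(max x 0)) := by fun_prop
  have hc : Continuous (fun x : ℝ => √(max (-x) 0)) := by fun_prop
  have hbb : cfc (fun x : ℝ => √(max x 0)) a * cfc (fun x : ℝ => √(max x 0)) a =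
      cfc (fun x : ℝ => max x 0) a := by
    rw [← cfc_mul _ _ a hb.continuousOn hb.continuousOn]
    exact cfc_congr fun x _ => Real.mul_self_sqrt (le_max_right _ _)
  have hcc : cfc (fun x : ℝ => √(max (-x) 0)) a * cfc (fun x : ℝ => √(max (-x) 0)) a =
      cfc (fun x : ℝ => max (-x) 0) a := by
    rw [← cfc_mul _ _ a hc.continuousOn hc.continuousOn]
    exact cfc_congr fun x _ => Real.mul_self_sqrt (le_max_right _ _)
  have hsum : cfc (fun x : ℝ => max x 0) a + cfc (fun x : ℝ => max (-x) 0) a =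
      cfc (fun x : ℝ => |x|) a := by
    rw [← cfc_add a _ _ (by fun_prop) (by fun_prop)]
    refine cfc_congr fun x _ => ?_
    rcases le_total 0 x with h | h
    · rw [max_eq_left h, max_eq_right (by linarith), abs_of_nonneg h, add_zero]
    · rw [max_eq_right h, max_eq_left (by linarith), abs_of_nonpos h, zero_add]
  refine ⟨cfc (fun x : ℝ => √(max x 0)) a, cfc (fun x : ℝ => √(max (-x) 0)) a,
    cfc (fun x : ℝ => |x|) a, cfc_predicate _ a, cfc_predicate _ a, cfc_predicate _ a,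
    ?_, ?_, ?_, ?_, ?_⟩
  · rw [hbb, hcc, ← cfc_sub _ _ a (by fun_prop) (by fun_prop)]
    conv_lhs => rw [← cfc_id' ℝ a ha]
    refine cfc_congr fun x _ => ?_
    rcases le_total 0 x with h | h
    · rw [max_eq_left h, max_eq_right (by linarith), sub_zero]
    · rw [max_eq_right h, max_eq_left (by linarith)]; ring
  · rw [hbb, hcc, hsum]
  · rw [← cfc_mul _ _ a (by fun_prop) (by fun_prop)]
    conv_rhs => rw [← cfc_id' ℝ a ha, ← cfc_mul _ _ a (by fun_prop) (by fun_prop)]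
    exact cfc_congr fun x _ => abs_mul_abs_self x
  · refine norm_cfc_le (Real.sqrt_nonneg _) fun x hx => ?_
    rw [Real.norm_eq_abs, abs_of_nonneg (Real.sqrt_nonneg _)]
    have h := spec_le a ha hx
    exact Real.sqrt_le_sqrt (max_le ((le_abs_self x).trans h) (norm_nonneg _))
  · refine norm_cfc_le (Real.sqrt_nonneg _) fun x hx => ?_
    rw [Real.norm_eq_abs, abs_of_nonneg (Real.sqrt_nonneg _)]
    have h := spec_le a ha hx
    exact Real.sqrt_le_sqrt (max_le ((neg_le_abs x).trans h) (norm_nonneg _))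

variable {H : Type u} [NormedAddCommGroup H] [InnerProductSpace ℂ H] [CompleteSpace H]

theorem sym (π : A →⋆ₐ[ℂ] (H →L[ℂ] H)) {b : A} (hb : IsSelfAdjoint b) (x y : H) :
    ⟪π b x, y⟫_ℂ = ⟪x, π b y⟫_ℂ := by
  have h : IsSelfAdjoint (π b) := hb.map π
  have h2 := (ContinuousLinearMap.isSelfAdjoint_iff_isSymmetric.1 h) x y
  exact h2

theorem norm_sq (π : A →⋆ₐ[ℂ] (H →L[ℂ] H)) {b : A} (hb : IsSelfAdjoint b) (x : H) :
    ‖π b x‖ ^ 2 = (⟪x, π (b * b) x⟫_ℂ).re := by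
  have h1 : ⟪π b x, π b x⟫_ℂ = ⟪x, π (b * b) x⟫_ℂ := by
    rw [sym π hb, map_mul]
    rfl
  rw [← h1, inner_self_eq_norm_sq_to_K]
  norm_cast

theorem le_of_parts (π : A →⋆ₐ[ℂ] (H →L[ℂ] H)) {a b c m : A} (ha : IsSelfAdjoint a)
    (hb : IsSelfAdjoint b) (hc : IsSelfAdjoint c) (hm : IsSelfAdjoint m)
    (h1 : m = b * b + c * c) (h2 : m * m = a * a) (x : H) :
    ‖π b x‖ ≤ √(‖π a x‖ * ‖x‖) ∧ ‖π c x‖ ≤ √(‖π a x‖ * ‖x‖) := by
  have h3 : ‖π m x‖ = ‖π a x‖ := by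
    have e1 := norm_sq π hm x
    have e2 := norm_sq π ha x
    rw [h2, ← e2] at e1
    exact (sq_eq_sq₀ (norm_nonneg _) (norm_nonneg _)).1 e1
  have h4 : ‖π b x‖ ^ 2 + ‖π c x‖ ^ 2 ≤ ‖π a x‖ * ‖x‖ := by
    rw [norm_sq π hb, norm_sq π hc, ← Complex.add_re, ← inner_add_right]
    have e : π (b * b) x + π (c * c) x = π m x := by
      rw [h1, map_add]
      rfl
    rw [e]
    have e2 := norm_inner_le_norm (𝕜 := ℂ) x (π m x)
    have e3 := Complex.re_le_norm ⟪x, π m x⟫_ℂ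
    rw [h3] at e2
    linarith [mul_comm ‖x‖ ‖π a x‖]
  constructor
  · apply Real.le_sqrt_of_sq_le
    nlinarith [sq_nonneg ‖π c x‖]
  · apply Real.le_sqrt_of_sq_le
    nlinarith [sq_nonneg ‖π b x‖]

theorem half (π : A →⋆ₐ[ℂ] (H →L[ℂ] H)) (D : A →ₗ[ℂ] (H →L[ℂ] H)) (K : ℝ) (hD : IsBDer π D K)
    {b : A} (hb : IsSelfAdjoint b) (x y : H) {s p q : ℝ} (hs : ‖b‖ ≤ s) (hp : ‖π b y‖ ≤ p)
    (hq : ‖π b x‖ ≤ q) :
    ‖⟪y, D (b * b) x⟫_ℂ‖ ≤ K * s * (‖x‖ * p + ‖y‖ * q) := by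
  have hK := hD.nonneg
  have hs0 : 0 ≤ s := (norm_nonneg _).trans hs
  have hp0 : 0 ≤ p := (norm_nonneg _).trans hp
  have hq0 : 0 ≤ q := (norm_nonneg _).trans hq
  have hDb : ‖D b‖ ≤ K * s := (hD.bound b).trans (mul_le_mul_of_nonneg_left hs hK)
  have e : ⟪y, D (b * b) x⟫_ℂ = ⟪π b y, D b x⟫_ℂ + ⟪y, D b (π b x)⟫_ℂ := by
    rw [hD.leib, sym π hb, ← inner_add_right]
    rfl
  rw [e]
  refine (norm_add_le _ _).trans ?_
  have h1 : ‖⟪π b y, D b x⟫_ℂ‖ ≤ p * (K * s * ‖x‖) := by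
    refine (norm_inner_le_norm _ _).trans (mul_le_mul hp ?_ (norm_nonneg _) hp0)
    exact ((D b).le_opNorm x).trans (mul_le_mul_of_nonneg_right hDb (norm_nonneg _))
  have h2 : ‖⟪y, D b (π b x)⟫_ℂ‖ ≤ ‖y‖ * (K * s * q) := by
    refine (norm_inner_le_norm _ _).trans (mul_le_mul_of_nonneg_left ?_ (norm_nonneg _))
    exact ((D b).le_opNorm _).trans (mul_le_mul hDb hq (norm_nonneg _) (by positivity))
  calc _ ≤ p * (K * s * ‖x‖) + ‖y‖ * (K * s * q) := add_le_add h1 h2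
    _ = _ := by ring

end E_est_aux

open E_est_aux in
theorem prove_E_est : E_est.{u} := by
  intro A _ H _ _ _ π D K hD a ha ξ η
  obtain ⟨b, c, m, hb, hc, hm, h1, h2, h3, h4, h5⟩ := parts a ha
  obtain ⟨p1, p2⟩ := le_of_parts π ha hb hc hm h2 h3 η
  obtain ⟨q1, q2⟩ := le_of_parts π ha hb hc hm h2 h3 ξ
  have e1 := half π D K hD hb ξ η h4 p1 q1
  have e2 := half π D K hD hc ξ η h5 p2 q2
  have e : ⟪η, D a ξ⟫_ℂ = ⟪η, D (b * b) ξ⟫_ℂ - ⟪η, D (c * c) ξ⟫_ℂ := by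
    rw [← inner_sub_right]
    congr 1
    conv_lhs => rw [h1, map_sub]
    rfl
  rw [e]
  refine (norm_sub_le _ _).trans ?_
  calc _ ≤ _ := add_le_add e1 e2
    _ = _ := by ring

end H744R2.KZ
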