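import Mathlib
import Pool.Agent.H744R2.KZ.Props
import Pool.Agent.H605R2.KZ.Est

open scoped ComplexOrder InnerProductSpace ComplexConjugate Topology
open Finset Filter

noncomputable section

namespace H744R2.KZ

open H759R2.Kad

universe u

namespace F_desc_aux

variable {A B : Type u} [CStarAlgebra A] [CStarAlgebra B]

theorem spec_le {E : Type u} [CStarAlgebra E] (a : E) (ha : IsSelfAdjoint a) {x : ℝ}
    (hx : x ∈ spectrum ℝ a) : |x| ≤ ‖a‖ := by
  have h := norm_apply_le_norm_cfc (fun x : ℝ => x) a hx (by fun_prop) ha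
  rw [cfc_id' ℝ a ha] at h
  exact h

/-- lifting without increase of the norm -/
theorem lift (π : A →⋆ₐ[ℂ] B) (a : A) : ∃ a' : A, π a' = π a ∧ ‖a'‖ ≤ ‖π a‖ := by
  rcases eq_or_ne (π a) 0 with h0 | h0
  · exact ⟨0, by rw [map_zero, h0], by simp⟩
  have hR : 0 < ‖π a‖ := norm_pos_iff.2 h0
  set R : ℝ := ‖π a‖ with hRdef
  set h : A := star a * a with hh
  have hsa : IsSelfAdjoint h := IsSelfAdjoint.star_mul_self a
  let f : ℝ → ℝ := fun t => R / max R (√|t|)
  have hpos : ∀ t : ℝ, 0 < max R (√|t|) := fun t => lt_max_of_lt_left hR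
  have hf : Continuous f := by
    refine Continuous.div continuous_const ?_ fun t => (hpos t).ne'
    fun_prop
  have hcf : IsSelfAdjoint (cfc f h) := cfc_predicate f h
  refine ⟨a * cfc f h, ?_, ?_⟩
  · have h1 : π (cfc f h) = 1 := by
      have hcont : Continuous (π : A → B) :=
        AddMonoidHomClass.continuous_of_bound π 1 fun x => by
          rw [one_mul]
          exact NonUnitalStarAlgHom.norm_apply_le (π : A →⋆ₙₐ[ℂ] B) x
      rw [StarAlgHomClass.map_cfc π f h hf.continuousOn hcont hsa (hsa.map π)]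
      have h2 : π h = star (π a) * π a := by rw [hh, map_mul, map_star]
      have h3 : ‖π h‖ = R ^ 2 := by rw [h2, CStarRing.norm_star_mul_self, sq]
      have h4 : cfc f (π h) = cfc (fun _ : ℝ => (1 : ℝ)) (π h) := by
        refine cfc_congr fun x hx => ?_
        have h5 := spec_le (π h) (hsa.map π) hx
        rw [h3] at h5
        have h6 : √|x| ≤ R := Real.sqrt_le_iff.2 ⟨hR.le, h5⟩
        change R / max R (√|x|) = 1
        rw [max_eq_left h6, div_self hR.ne']
      rw [h4, cfc_const_one ℝ (π h) (hsa.map π)]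
    rw [map_mul, h1, mul_one]
  · have h1 : star (a * cfc f h) * (a * cfc f h) = cfc (fun t : ℝ => f t * (t * f t)) h := by
      rw [cfc_mul f (fun t => t * f t) h hf.continuousOn (by fun_prop),
        cfc_mul (fun t => t) f h (by fun_prop) hf.continuousOn, cfc_id' ℝ h hsa, star_mul,
        hcf.star_eq, hh]
      simp only [mul_assoc]
    have h2 : ‖a * cfc f h‖ ^ 2 ≤ R ^ 2 := by
      rw [sq, ← CStarRing.norm_star_mul_self, h1]
      refine norm_cfc_le (by positivity) fun t _ => ?_
      have h3 := hpos t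
      have h4 : √|t| ≤ max R (√|t|) := le_max_right _ _
      have h5 : |t| ≤ (max R (√|t|)) ^ 2 := by
        calc |t| = (√|t|) ^ 2 := (Real.sq_sqrt (abs_nonneg t)).symm
          _ ≤ (max R (√|t|)) ^ 2 := pow_le_pow_left₀ (Real.sqrt_nonneg _) h4 2
      rw [Real.norm_eq_abs]
      have h6 : f t * (t * f t) = t * R ^ 2 / (max R (√|t|)) ^ 2 := by
        change R / max R (√|t|) * (t * (R / max R (√|t|))) = _
        field_simp
      rw [h6, abs_div, abs_mul, abs_of_nonneg (sq_nonneg R),
        abs_of_nonneg (sq_nonneg (max R (√|t|))), div_le_iff₀ (by positivity)]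
      nlinarith [sq_nonneg R]
    exact (pow_le_pow_iff_left₀ (norm_nonneg _) hR.le two_ne_zero).1 h2

theorem closed (π : A →⋆ₐ[ℂ] B) : IsClosed ((π.range : StarSubalgebra ℂ B) : Set B) := by
  let f : NormedAddGroupHom A B :=
    { toFun := π
      map_add' := map_add π
      bound' := ⟨1, fun a => by rw [one_mul]; exact NonUnitalStarAlgHom.norm_apply_le (π : A →⋆ₙₐ[ℂ] B) a⟩ }
  let K : AddSubgroup B := f.range
  have hyp : f.SurjectiveOnWith K 1 := by
    rintro _ ⟨a, rfl⟩
    obtain ⟨a', h1, h2⟩ := lift π a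
    exact ⟨a', h1, by rw [one_mul]; exact h2⟩
  have h := controlled_closure_of_complete one_pos one_pos hyp
  have hK : (K : Set B) = ((π.range : StarSubalgebra ℂ B) : Set B) := by
    ext y
    constructor
    · rintro ⟨a, rfl⟩
      exact ⟨a, rfl⟩
    · rintro ⟨a, rfl⟩
      exact ⟨a, rfl⟩
  rw [← hK, ← closure_subset_iff_isClosed, ← AddSubgroup.topologicalClosure_coe]
  intro y hy
  obtain ⟨a, ha, _⟩ := h y hy
  exact ⟨a, ha⟩

theorem ker (hE : E_est.{u}) {L : Type u} [NormedAddCommGroup L] [InnerProductSpace ℂ L]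
    [CompleteSpace L] (π : A →⋆ₐ[ℂ] (L →L[ℂ] L)) (D : A →ₗ[ℂ] (L →L[ℂ] L)) (K : ℝ)
    (hD : IsBDer π D K) {a : A} (ha : π a = 0) : D a = 0 := by
  have key : ∀ x : A, IsSelfAdjoint x → π x = 0 → D x = 0 := by
    intro x hx h0
    ext ξ
    have h1 := hE A L π D K hD x hx ξ (D x ξ)
    rw [h0] at h1
    simp only [zero_apply, norm_zero, zero_mul, Real.sqrt_zero, mul_zero, add_zero] at h1
    have h2 : ⟪D x ξ, D x ξ⟫_ℂ = 0 := norm_le_zero_iff.1 h1
    simpa using h2
  have h1 : D (a + star a) = 0 := by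
    refine key _ (IsSelfAdjoint.add_star_self a) ?_
    rw [map_add, map_star, ha, star_zero, add_zero]
  have h2 : D (Complex.I • (a - star a)) = 0 := by
    refine key _ ?_ ?_
    · rw [IsSelfAdjoint, star_smul, star_sub, star_star, Complex.star_def, Complex.conj_I,
        neg_smul, ← smul_neg, neg_sub]
    · rw [map_smul, map_sub, map_star, ha, star_zero, sub_zero, smul_zero]
  have h3 : (2 : ℂ) • a = (a + star a) - Complex.I • (Complex.I • (a - star a)) := by
    rw [smul_smul, Complex.I_mul_I, two_smul]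
    simp only [neg_smul, one_smul]
    abel
  have h4 : (2 : ℂ) • D a = 0 := by
    rw [← map_smul, h3, map_sub, map_smul, h1, h2, smul_zero, sub_zero]
  exact (smul_eq_zero.1 h4).resolve_left two_ne_zero

end F_desc_aux

open F_desc_aux in
theorem prove_F_desc : F_desc.{u} := by
  intro A _ L _ _ _ π D K hD
  have hE := prove_E_est.{u}
  have hcl : IsClosed ((π.range : StarSubalgebra ℂ (L →L[ℂ] L)) : Set (L →L[ℂ] L)) := closed π
  let p : A →⋆ₐ[ℂ] π.range := π.rangeRestrict
  have hp : ∀ a, ((p a : π.range) : L →L[ℂ] L) = π a := fun a => rfl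
  have hsurj : Function.Surjective p := by
    rintro ⟨y, a, rfl⟩
    exact ⟨a, rfl⟩
  have hker : ∀ a a' : A, p a = p a' → D a = D a' := by
    intro a a' h
    have h1 : π (a - a') = 0 := by
      rw [map_sub, ← hp, ← hp, h, sub_self]
    have h2 := ker hE π D K hD h1
    rw [map_sub, sub_eq_zero] at h2
    exact h2
  choose s hs using hsurj
  let D' : π.range →ₗ[ℂ] (L →L[ℂ] L) :=
    { toFun := fun b => D (s b)
      map_add' := fun b b' => by
        rw [← map_add]
        exact hker _ _ (by rw [hs, map_add, hs, hs])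
      map_smul' := fun c b => by
        rw [RingHom.id_apply, ← map_smul]
        exact hker _ _ (by rw [hs, map_smul, hs]) }
  have hD' : ∀ a, D' (p a) = D a := fun a => hker _ _ (hs _)
  refine ⟨π.range, StarSubalgebra.cstarAlgebra π.range, p, π.range.subtype, D', fun b => ⟨s b, hs b⟩,
    Subtype.val_injective, fun a => rfl, hD', ?_, hD.nonneg, ?_⟩
  · intro b b'
    obtain ⟨a, rfl⟩ : ∃ a, p a = b := ⟨s b, hs b⟩
    obtain ⟨a', rfl⟩ : ∃ a', p a' = b' := ⟨s b', hs b'⟩
    rw [← map_mul, hD', hD', hD', hD.leib]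
    rfl
  · intro b
    obtain ⟨a, rfl⟩ : ∃ a, p a = b := ⟨s b, hs b⟩
    obtain ⟨a', h1, h2⟩ := lift π a
    have h3 : p a' = p a := Subtype.ext h1
    rw [← h3, hD']
    refine (hD.bound a').trans (mul_le_mul_of_nonneg_left ?_ hD.nonneg)
    rw [h3]
    exact h2

end H744R2.KZ
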